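import Mathlib

set_option autoImplicit false

namespace Pool.Agent.Results.MP_2f3180_ag.PolyaFails

open MvPolynomial

def NN {n : ℕ} (P : MvPolynomial (Fin n) ℝ) : Prop := ∀ m, 0 ≤ coeff m P

lemma NN.mul {n : ℕ} {P Q : MvPolynomial (Fin n) ℝ} (hP : NN P) (hQ : NN Q) : NN (P * Q) := by
  classical
  intro m
  rw [coeff_mul]
  exact Finset.sum_nonneg fun x _ => mul_nonneg (hP _) (hQ _)

lemma NN.pos {n : ℕ} {P Q : MvPolynomial (Fin n) ℝ} (hP : NN P) (hQ : NN Q) (a b : Fin n →₀ ℕ)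
    (ha : 0 < coeff a P) (hb : 0 < coeff b Q) : 0 < coeff (a + b) (P * Q) := by
  classical
  rw [coeff_mul]
  refine Finset.sum_pos' (fun x _ => mul_nonneg (hP _) (hQ _)) ⟨(a, b), by simp, mul_pos ha hb⟩

lemma NN.psum (n j : ℕ) : NN (psum (Fin n) ℝ j) := by
  classical
  intro m
  simp only [MvPolynomial.psum, coeff_sum, coeff_X_pow]
  exact Finset.sum_nonneg fun i _ => by split_ifs <;> norm_num

lemma NN.pow {n : ℕ} {P : MvPolynomial (Fin n) ℝ} (hP : NN P) (k : ℕ) : NN (P ^ k) := by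
  classical
  induction k with
  | zero => intro m; rw [pow_zero, coeff_one]; split_ifs <;> norm_num
  | succ k ih => rw [pow_succ]; exact ih.mul hP

lemma psum_pos (n j : ℕ) (i : Fin n) : 0 < coeff (Finsupp.single i j) (psum (Fin n) ℝ j) := by
  classical
  simp only [MvPolynomial.psum, coeff_sum, coeff_X_pow]
  refine Finset.sum_pos' (fun i _ => by split_ifs <;> norm_num) ⟨i, by simp, by simp⟩

lemma kill (n j : ℕ) (hj : 4 < j) (R : MvPolynomial (Fin n) ℝ) (m : Fin n →₀ ℕ) (hm : ∀ i, m i ≤ 4) :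
    coeff m (R * psum (Fin n) ℝ j) = 0 := by
  classical
  simp only [MvPolynomial.psum, Finset.mul_sum, coeff_sum]
  refine Finset.sum_eq_zero fun i _ => ?_
  rw [X_pow_eq_monomial, coeff_mul_monomial', if_neg]
  intro h
  have := h i
  have := hm i
  simp at *
  omega

lemma ex (n k : ℕ) (h : k + 2 ≤ n) : ∃ m : Fin n →₀ ℕ, (∀ i, m i ≤ 4) ∧ (∀ i : Fin n, k + 2 ≤ i → m i = 0) ∧
    0 < coeff m (psum (Fin n) ℝ 2 ^ k * psum (Fin n) ℝ 4 ^ 2) := by
  classical
  induction k with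
  | zero =>
    refine ⟨Finsupp.single ⟨0, by omega⟩ 4 + Finsupp.single ⟨1, by omega⟩ 4, ?_, ?_, ?_⟩
    · intro i
      simp only [Finsupp.add_apply, Finsupp.single_apply, Fin.ext_iff]
      split_ifs <;> omega
    · intro i hi
      simp only [Finsupp.add_apply, Finsupp.single_apply, Fin.ext_iff]
      split_ifs <;> omega
    · rw [pow_zero, one_mul, pow_two]
      exact (NN.psum n 4).pos (NN.psum n 4) _ _ (psum_pos _ _ _) (psum_pos _ _ _)
  | succ k ih =>
    obtain ⟨m, h1, h2, h3⟩ := ih (by omega)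
    refine ⟨Finsupp.single ⟨k + 2, by omega⟩ 2 + m, ?_, ?_, ?_⟩
    · intro i
      simp only [Finsupp.add_apply, Finsupp.single_apply, Fin.ext_iff]
      have := h1 i
      have := h2 i
      split_ifs <;> omega
    · intro i hi
      simp only [Finsupp.add_apply, Finsupp.single_apply, Fin.ext_iff]
      have := h2 i
      split_ifs <;> omega
    · rw [pow_succ', mul_assoc]
      exact (NN.psum n 2).pos (((NN.psum n 2).pow k).mul ((NN.psum n 4).pow 2)) _ _ (psum_pos _ _ _) h3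

theorem result :
    (∀ x : ℕ → ℝ, Summable (fun i => x i ^ 2) → ∑' i, x i ^ 2 = 1 →
      0 < (∑' i, x i ^ 2) * (∑' i, x i ^ 6) - (∑' i, x i ^ 4) ^ 2 + ∑' i, x i ^ 8) ∧
    ∀ k : ℕ, ∃ (n : ℕ) (m : Fin n →₀ ℕ),
      coeff m (psum (Fin n) ℝ 2 ^ k *
        (psum (Fin n) ℝ 2 * psum (Fin n) ℝ 6 - psum (Fin n) ℝ 4 ^ 2 + psum (Fin n) ℝ 8)) < 0 := by
  constructor
  · intro x hs h1
    have hle : ∀ i, x i ^ 2 ≤ 1 := fun i => h1 ▸ hs.le_tsum i (fun j _ => sq_nonneg _)
    have hp : ∀ j : ℕ, Summable (fun i => x i ^ (2 * (j + 1))) := by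
      intro j
      refine Summable.of_nonneg_of_le (fun i => by rw [pow_mul]; positivity) (fun i => ?_) hs
      rw [pow_mul, pow_succ]
      exact mul_le_of_le_one_left (sq_nonneg _) (pow_le_one₀ (sq_nonneg _) (hle i))
    have h4 : Summable (fun i => x i ^ 4) := hp 1
    have h6 : Summable (fun i => x i ^ 6) := hp 2
    have h8 : Summable (fun i => x i ^ 8) := hp 3
    set t := ∑' i, x i ^ 4 with ht
    have a : HasSum (fun i => t ^ 2 * x i ^ 2 - 2 * t * x i ^ 4 + x i ^ 6)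
        (t ^ 2 * (∑' i, x i ^ 2) - 2 * t * t + ∑' i, x i ^ 6) :=
      ((hs.hasSum.mul_left _).sub (h4.hasSum.mul_left _)).add h6.hasSum
    have b := a.nonneg (fun i => by
      have : t ^ 2 * x i ^ 2 - 2 * t * x i ^ 4 + x i ^ 6 = (t * x i - x i ^ 3) ^ 2 := by ring
      rw [this]; positivity)
    have c : ∃ i, x i ≠ 0 := by
      by_contra hc
      push Not at hc
      simp [hc] at h1
    obtain ⟨i, hi⟩ := c
    have d : 0 < ∑' i, x i ^ 8 := h8.tsum_pos (fun i => by positivity) i (by positivity)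
    rw [h1] at b ⊢
    nlinarith
  · intro k
    obtain ⟨m, h1, -, h3⟩ := ex (k + 2) k le_rfl
    refine ⟨k + 2, m, ?_⟩
    rw [mul_add, mul_sub, coeff_add, coeff_sub, ← mul_assoc, kill _ 6 (by norm_num) _ m h1,
      kill _ 8 (by norm_num) _ m h1]
    linarith

end Pool.Agent.Results.MP_2f3180_ag.PolyaFails
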